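import Mathlib

/-!
# MP_7ba156_nt: cubes of shifts in a finite cyclic group
-/

set_option autoImplicit false

namespace Pool.Agent.Lib_MP_7ba156_cube

open Finset

/-- one more generator squares the density of what is not covered -/
theorem cube_step {q : ℕ} [NeZero q] (V : Finset (ZMod q)) :
    ∃ e : ZMod q, (V.filter fun r => r + e ∈ V).card * q ≤ V.card ^ 2 := by
  classical
  by_contra hne
  push Not at hne
  have h1 : ∑ e : ZMod q, (V.filter fun r => r + e ∈ V).card = V.card ^ 2 := by
    have h2 : ∀ e : ZMod q, (V.filter fun r => r + e ∈ V).card = ∑ r ∈ V, if r + e ∈ V then 1 else 0 := by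
      intro e
      rw [card_filter]
    rw [sum_congr rfl fun e _ => h2 e, sum_comm]
    have h3 : ∀ r ∈ V, ∑ e : ZMod q, (if r + e ∈ V then 1 else 0) = V.card := by
      intro r _
      rw [← card_filter]
      refine card_bij (fun e _ => r + e) ?_ ?_ ?_
      · intro e he
        exact (mem_filter.1 he).2
      · intro a _ b _ hab
        exact add_left_cancel hab
      · intro v hv
        refine ⟨v - r, mem_filter.2 ⟨mem_univ _, ?_⟩, by ring⟩
        rw [show r + (v - r) = v by ring]
        exact hv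
    rw [sum_congr rfl h3, sum_const, smul_eq_mul, sq]
  have h4 : ∑ e : ZMod q, V.card ^ 2 < ∑ e : ZMod q, (V.filter fun r => r + e ∈ V).card * q :=
    sum_lt_sum_of_nonempty univ_nonempty fun e _ => hne e
  rw [← sum_mul, h1, sum_const, card_univ, ZMod.card, smul_eq_mul, mul_comm] at h4
  exact lt_irrefl _ h4

/-- a cube of shifts: the set of residues all of whose shifts by the cube lie in `U` is small -/
theorem cube {q : ℕ} [NeZero q] (U : Finset (ZMod q)) (k : ℕ) :
    ∃ d : Fin k → ZMod q, ∀ B : Finset (ZMod q),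
      (∀ r ∈ B, ∀ S : Finset (Fin k), r + ∑ i ∈ S, d i ∈ U) →
      (B.card : ℝ) / q ≤ ((U.card : ℝ) / q) ^ (2 ^ k) := by
  classical
  have hq : (0 : ℝ) < q := by exact_mod_cast Nat.pos_of_ne_zero (NeZero.ne q)
  induction k with
  | zero =>
    refine ⟨fun i => 0, fun B hB => ?_⟩
    have : B ⊆ U := by
      intro r hr
      have := hB r hr ∅
      simpa using this
    have h1 : (B.card : ℝ) ≤ U.card := by exact_mod_cast card_le_card this
    rw [pow_zero, pow_one]
    exact div_le_div_of_nonneg_right h1 hq.le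
  | succ k ih =>
    obtain ⟨d, hd⟩ := ih
    set V : Finset (ZMod q) := univ.filter fun r => ∀ S : Finset (Fin k), r + ∑ i ∈ S, d i ∈ U with hV
    have hV1 : (V.card : ℝ) / q ≤ ((U.card : ℝ) / q) ^ (2 ^ k) := by
      refine hd V fun r hr => ?_
      exact (mem_filter.1 hr).2
    obtain ⟨e, he⟩ := cube_step V
    refine ⟨Fin.cons e d, fun B hB => ?_⟩
    have hsub : B ⊆ V.filter fun r => r + e ∈ V := by
      intro r hr
      rw [mem_filter]
      constructor
      · refine mem_filter.2 ⟨mem_univ _, fun S => ?_⟩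
        have := hB r hr (S.map (Fin.succEmb k))
        rw [sum_map] at this
        simpa using this
      · refine mem_filter.2 ⟨mem_univ _, fun S => ?_⟩
        have := hB r hr (insert 0 (S.map (Fin.succEmb k)))
        rw [sum_insert (by simp [Fin.succ_ne_zero]), sum_map] at this
        simp only [Fin.cons_zero, Fin.coe_succEmb, Fin.cons_succ] at this
        rw [← add_assoc] at this
        exact this
    have h1 : (B.card : ℝ) * q ≤ (V.card : ℝ) ^ 2 := by
      have := (Nat.mul_le_mul_right q (card_le_card hsub)).trans he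
      exact_mod_cast this
    have h2 : (B.card : ℝ) / q ≤ ((V.card : ℝ) / q) ^ 2 := by
      rw [div_pow, div_le_div_iff₀ hq (by positivity)]
      calc (B.card : ℝ) * q ^ 2 = (B.card * q) * q := by ring
        _ ≤ (V.card : ℝ) ^ 2 * q := mul_le_mul_of_nonneg_right h1 hq.le
    refine h2.trans ?_
    rw [pow_succ 2 k, pow_mul]
    exact pow_le_pow_left₀ (by positivity) hV1 2

/-- a cube of shifts for the complement of a large set of residues -/
theorem cube_exp {q : ℕ} [NeZero q] (G : Finset ℕ) (hG : G ⊆ range q) (k : ℕ) :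
    ∃ d : Fin k → ℕ, (∀ i, d i < q) ∧ ∀ B : Finset ℕ, B ⊆ range q →
      (∀ n ∈ B, ∀ S : Finset (Fin k), ∀ g ∈ G, g % q ≠ (n + ∑ i ∈ S, d i) % q) →
      (B.card : ℝ) ≤ q * Real.exp (-((G.card : ℝ) / q * 2 ^ k)) := by
  classical
  have hq : (0 : ℝ) < q := by exact_mod_cast Nat.pos_of_ne_zero (NeZero.ne q)
  have hinj : ∀ A : Finset ℕ, A ⊆ range q → (A.image (Nat.cast : ℕ → ZMod q)).card = A.card := by
    intro A hA
    refine card_image_of_injOn ?_
    intro a ha b hb hab
    have h1 : a % q = b % q := (ZMod.natCast_eq_natCast_iff a b q).1 hab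
    rwa [Nat.mod_eq_of_lt (mem_range.1 (hA ha)), Nat.mod_eq_of_lt (mem_range.1 (hA hb))] at h1
  set G' : Finset (ZMod q) := G.image (Nat.cast : ℕ → ZMod q) with hG'
  obtain ⟨d, hd⟩ := cube (G'ᶜ) k
  refine ⟨fun i => (d i).val, fun i => ZMod.val_lt _, fun B hB hBG => ?_⟩
  have h1 := hd (B.image (Nat.cast : ℕ → ZMod q)) ?_
  · rw [hinj B hB, card_compl, ZMod.card, hinj G hG, Nat.cast_sub (by simpa using card_le_card hG)] at h1
    have h2 : (((q : ℝ) - G.card) / q) ^ (2 ^ k) ≤ Real.exp (-((G.card : ℝ) / q * 2 ^ k)) := by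
      have h3 : ((q : ℝ) - G.card) / q = 1 - (G.card : ℝ) / q := by field_simp
      have h4 : 0 ≤ ((q : ℝ) - G.card) / q := by
        have : (G.card : ℝ) ≤ q := by exact_mod_cast (by simpa using card_le_card hG : G.card ≤ q)
        have : 0 ≤ (q : ℝ) - G.card := by linarith
        positivity
      have h5 : ((q : ℝ) - G.card) / q ≤ Real.exp (-((G.card : ℝ) / q)) := by
        rw [h3]
        have := Real.add_one_le_exp (-((G.card : ℝ) / q))
        linarith
      refine (pow_le_pow_left₀ h4 h5 _).trans ?_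
      rw [← Real.exp_nat_mul]
      push_cast
      rw [show (2 : ℝ) ^ k * -((G.card : ℝ) / q) = -((G.card : ℝ) / q * 2 ^ k) by ring]
    have h6 := h1.trans h2
    rwa [div_le_iff₀ hq, mul_comm] at h6
  · intro r hr S
    obtain ⟨n, hn, rfl⟩ := mem_image.1 hr
    rw [mem_compl]
    intro hmem
    obtain ⟨g, hg, hgn⟩ := mem_image.1 hmem
    refine hBG n hn S g hg ?_
    have : ((g : ℕ) : ZMod q) = ((n + ∑ i ∈ S, (d i).val : ℕ) : ZMod q) := by
      rw [hgn]
      push_cast
      simp
    exact (ZMod.natCast_eq_natCast_iff _ _ _).1 this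

end Pool.Agent.Lib_MP_7ba156_cube
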