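import Pool.Agent.Lib_MP_a95293_rc.SvU
import Pool.Agent.Lib_MP_a95293_rc.SvM

/-!
# MP_7ba156_nt: upper bound for the number of prime pairs, uniform in the difference
-/

set_option autoImplicit false

namespace Pool.Agent.Lib_MP_7ba156_cube

open Finset Pool.Agent.OmAP Pool.MP_a95293_nt.RC

/-- the divisor sum in the bound -/
noncomputable def sf (h : ℕ) : ℝ := ∑ d ∈ h.divisors, 1 / Real.sqrt d

theorem one_le_sf {h : ℕ} (hh : 1 ≤ h) : 1 ≤ sf h := by
  unfold sf
  have h1 : (1 : ℕ) ∈ h.divisors := Nat.one_mem_divisors.2 (by omega)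
  refine le_trans (le_of_eq ?_) (single_le_sum (f := fun d : ℕ => 1 / Real.sqrt d)
    (fun d _ => by positivity) h1)
  simp

/-- `∏_{p ∣ h, p ∈ P} (1 + 1/√p) ≤ sf h` -/
theorem prod_le_sf {h : ℕ} (hh : 1 ≤ h) (P : Finset ℕ) (hP : ∀ p ∈ P, p.Prime) (hd : ∀ p ∈ P, p ∣ h) :
    ∏ p ∈ P, (1 + 1 / Real.sqrt p) ≤ sf h := by
  classical
  have e1 : ∏ p ∈ P, (1 + 1 / Real.sqrt p) = ∑ A ∈ P.powerset, ∏ p ∈ A, (1 / Real.sqrt (p : ℝ)) := by
    rw [Finset.prod_one_add]
  have e2 : ∀ A ∈ P.powerset, ∏ p ∈ A, (1 / Real.sqrt (p : ℝ)) = 1 / Real.sqrt ((∏ p ∈ A, p : ℕ) : ℝ) := by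
    intro A hA0
    clear hA0
    induction A using Finset.induction_on with
    | empty => simp
    | insert a s ha ih =>
      rw [prod_insert ha, prod_insert ha, ih]
      push_cast
      rw [Real.sqrt_mul (by positivity)]
      field_simp
  rw [e1, sum_congr rfl e2]
  unfold sf
  have hinj : Set.InjOn (fun A : Finset ℕ => ∏ p ∈ A, p) (P.powerset : Set (Finset ℕ)) := by
    intro A hA B hB hAB
    have hA' := mem_powerset.1 (mem_coe.1 hA)
    have hB' := mem_powerset.1 (mem_coe.1 hB)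
    have h1 : (∏ p ∈ A, p).primeFactors = A := Nat.primeFactors_prod (fun p hp => hP p (hA' hp))
    have h2 : (∏ p ∈ B, p).primeFactors = B := Nat.primeFactors_prod (fun p hp => hP p (hB' hp))
    rw [← h1, ← h2]
    exact congrArg _ hAB
  rw [← sum_image (f := fun d : ℕ => 1 / Real.sqrt (d : ℝ)) (s := P.powerset)
    (g := fun A : Finset ℕ => ∏ p ∈ A, p) hinj]
  refine sum_le_sum_of_subset_of_nonneg ?_ (fun d _ _ => by positivity)
  intro d hdm
  obtain ⟨A, hA, rfl⟩ := mem_image.1 hdm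
  have hA' := mem_powerset.1 hA
  refine Nat.mem_divisors.2 ⟨?_, by omega⟩
  exact Finset.prod_primes_dvd h (fun p hp => (hP p (hA' hp)).prime) (fun p hp => hd p (hA' hp))

/-- the forbidden classes -/
def cl (h p : ℕ) : Finset ℕ := {0, (p - h % p) % p}

theorem cl_sub (h : ℕ) {p : ℕ} (hp : 0 < p) : cl h p ⊆ range p := by
  intro t ht
  rcases mem_insert.1 ht with rfl | ht
  · exact mem_range.2 hp
  · rw [mem_singleton.1 ht]
    exact mem_range.2 (Nat.mod_lt _ hp)

theorem cl_card_le (h p : ℕ) : (cl h p).card ≤ 2 := card_le_two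

theorem cl_card {h p : ℕ} (hp : 0 < p) (hn : ¬ p ∣ h) : (cl h p).card = 2 := by
  refine card_pair ?_
  intro h0
  have h1 : h % p ≠ 0 := fun hc => hn (Nat.dvd_of_mod_eq_zero hc)
  have h2 := Nat.mod_lt h hp
  rw [Nat.mod_eq_of_lt (by omega)] at h0
  omega

theorem cl_card_pos (h p : ℕ) : 1 ≤ (cl h p).card := card_pos.2 ⟨0, mem_insert_self _ _⟩

theorem cl_dvd {h p t : ℕ} (hp : 0 < p) (ht : t % p ∈ cl h p) : p ∣ t ∨ p ∣ t + h := by
  rcases mem_insert.1 ht with h0 | h0
  · exact Or.inl (Nat.dvd_of_mod_eq_zero h0)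
  · right
    rw [mem_singleton] at h0
    have h3 : t + h ≡ (p - h % p) + h % p [MOD p] :=
      (show t ≡ p - h % p [MOD p] from h0).add (Nat.mod_modEq h p).symm
    rw [Nat.sub_add_cancel (Nat.mod_lt h hp).le] at h3
    exact (Nat.modEq_zero_iff_dvd).1 (h3.trans (by simp [Nat.ModEq]))

theorem prod_one (z : ℕ) (hz : 4 ≤ z) :
    ∏ p ∈ PP 2 z, (1 - 1 / (p : ℝ)) ≤ 3 / Real.log z := by
  have hlog : 0 < Real.log z := Real.log_pos (by exact_mod_cast (by omega : 1 < z))
  have h3 := mertens_up z (by omega)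
  have hset : (Icc 1 z).filter Nat.Prime = {2, 3} ∪ PP 2 z := by
    ext p
    rw [mem_filter, mem_Icc, mem_union, mem_PP]
    constructor
    · rintro ⟨⟨h1, h2⟩, h4⟩
      by_cases h5 : p ≤ 4
      · left
        interval_cases p
        · exact absurd h4 (by decide)
        · simp
        · simp
        · exact absurd h4 (by decide)
      · exact Or.inr ⟨⟨by omega, h2⟩, h4⟩
    · rintro (h | h)
      · rcases mem_insert.1 h with rfl | h
        · exact ⟨⟨by omega, by omega⟩, by decide⟩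
        · rw [mem_singleton.1 h]
          exact ⟨⟨by omega, by omega⟩, by decide⟩
      · exact ⟨⟨by omega, h.1.2⟩, h.2⟩
  have hdis : Disjoint ({2, 3} : Finset ℕ) (PP 2 z) := by
    rw [disjoint_left]
    intro p hp hp'
    have h6 := (mem_PP.1 hp').1.1
    rcases mem_insert.1 hp with rfl | h
    · omega
    · rw [mem_singleton.1 h] at h6
      omega
  rw [hset, prod_union hdis, prod_pair (by decide)] at h3
  rw [le_div_iff₀ hlog]
  rw [le_div_iff₀ hlog] at h3
  push_cast at h3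
  nlinarith [h3]

theorem prod_pairs {h : ℕ} (hh : 1 ≤ h) (z : ℕ) (hz : 4 ≤ z) :
    ∏ p ∈ PP 2 z, (1 - ((cl h p).card : ℝ) / p) ≤ 9 / Real.log z ^ 2 * sf h := by
  classical
  have hlog : 0 < Real.log z := Real.log_pos (by exact_mod_cast (by omega : 1 < z))
  have hfac : ∀ p ∈ PP 2 z, (5 : ℝ) ≤ p ∧ 0 ≤ 1 - 1 / (p : ℝ) := by
    intro p hp
    have h1 := mem_PP.1 hp
    have h5 : (5 : ℝ) ≤ p := by exact_mod_cast (by omega : 5 ≤ p)
    refine ⟨h5, ?_⟩
    have : 1 / (p : ℝ) ≤ 1 / 5 := one_div_le_one_div_of_le (by norm_num) h5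
    linarith
  have h1 : ∏ p ∈ PP 2 z, (1 - ((cl h p).card : ℝ) / p) ≤
      ∏ p ∈ PP 2 z, ((1 - 1 / (p : ℝ)) ^ 2 * (if p ∣ h then 1 + 1 / Real.sqrt p else 1)) := by
    refine prod_le_prod (fun p hp => ?_) (fun p hp => ?_)
    · obtain ⟨h5, _⟩ := hfac p hp
      have h2 : ((cl h p).card : ℝ) ≤ 2 := by exact_mod_cast cl_card_le h p
      have : ((cl h p).card : ℝ) / p ≤ 1 := by
        rw [div_le_one (by linarith)]
        linarith
      linarith
    · obtain ⟨h5, h6⟩ := hfac p hp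
      have hp0 : (0 : ℝ) < p := by linarith
      by_cases hd : p ∣ h
      · rw [if_pos hd]
        have h7 : (1 : ℝ) ≤ (cl h p).card := by exact_mod_cast cl_card_pos h p
        have h8 : 1 - ((cl h p).card : ℝ) / p ≤ 1 - 1 / p := by
          have := div_le_div_of_nonneg_right h7 hp0.le
          linarith
        refine h8.trans ?_
        -- 1 ≤ (1 - 1/p)(1 + 1/√p)
        have hs : 2 ≤ Real.sqrt p := by
          rw [show (2 : ℝ) = Real.sqrt 4 by rw [show (4 : ℝ) = 2 ^ 2 by norm_num]; exact (Real.sqrt_sq (by norm_num)).symm]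
          exact Real.sqrt_le_sqrt (by linarith)
        have hss : Real.sqrt p * Real.sqrt p = p := Real.mul_self_sqrt hp0.le
        have hs0 : 0 < Real.sqrt p := by linarith
        have h9 : 1 ≤ (1 - 1 / (p : ℝ)) * (1 + 1 / Real.sqrt p) := by
          set s := Real.sqrt p with hsdef
          rw [← hss]
          rw [show (1 - 1 / (s * s)) * (1 + 1 / s) = 1 + (s * s - s - 1) / (s * s * s) by
            field_simp
            ring]
          have : 0 ≤ (s * s - s - 1) / (s * s * s) := div_nonneg (by nlinarith) (by positivity)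
          linarith
        calc 1 - 1 / (p : ℝ) = (1 - 1 / (p : ℝ)) * 1 := by ring
          _ ≤ (1 - 1 / (p : ℝ)) * ((1 - 1 / (p : ℝ)) * (1 + 1 / Real.sqrt p)) :=
            mul_le_mul_of_nonneg_left h9 h6
          _ = _ := by ring
      · rw [if_neg hd, cl_card (by exact_mod_cast hp0) hd]
        have : 0 ≤ (1 / (p : ℝ)) ^ 2 := sq_nonneg _
        push_cast
        have e : (2 : ℝ) / p = 2 * (1 / p) := by ring
        rw [e]
        nlinarith
  have h2 : ∏ p ∈ PP 2 z, ((1 - 1 / (p : ℝ)) ^ 2 * (if p ∣ h then 1 + 1 / Real.sqrt p else 1)) =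
      (∏ p ∈ PP 2 z, (1 - 1 / (p : ℝ))) ^ 2 * ∏ p ∈ (PP 2 z).filter (fun p => p ∣ h), (1 + 1 / Real.sqrt p) := by
    rw [prod_mul_distrib, prod_pow, prod_filter]
  have h3 : ∏ p ∈ (PP 2 z).filter (fun p => p ∣ h), (1 + 1 / Real.sqrt p) ≤ sf h :=
    prod_le_sf hh _ (fun p hp => (mem_PP.1 (mem_filter.1 hp).1).2) (fun p hp => (mem_filter.1 hp).2)
  have h4 : 0 ≤ ∏ p ∈ PP 2 z, (1 - 1 / (p : ℝ)) := prod_nonneg fun p hp => (hfac p hp).2
  have h5 : (∏ p ∈ PP 2 z, (1 - 1 / (p : ℝ))) ^ 2 ≤ 9 / Real.log z ^ 2 := by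
    have := pow_le_pow_left₀ h4 (prod_one z hz) 2
    rw [div_pow, show (3 : ℝ) ^ 2 = 9 by norm_num] at this
    exact this
  rw [h2] at h1
  refine h1.trans (mul_le_mul h5 h3 (prod_nonneg fun p _ => by positivity) (by positivity))

/-- **Prime pairs.** -/
theorem pair_upper : ∃ C : ℝ, 0 < C ∧ ∃ x₀ : ℕ, ∀ x ≥ x₀, ∀ h : ℕ, 1 ≤ h →
    (((range (x + 1)).filter fun n => n.Prime ∧ (n + h).Prime).card : ℝ) * Real.log x ^ 2 ≤
      C * x * sf h := by
  obtain ⟨Cs, hCs⟩ := sieve_count_up 2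
  set D : ℕ := Cs + 2 with hD
  have hD0 : (0 : ℝ) < D := by positivity
  refine ⟨2 * ((2 * (D : ℝ)) ^ 2 * 2) + 72 * (2 * (D : ℝ)) ^ 2, by positivity,
    4 ^ D, fun x hx h hh => ?_⟩
  have hsf := one_le_sf hh
  have hx1 : 1 ≤ x := le_trans (Nat.one_le_pow _ _ (by norm_num)) hx
  have hxR : (1 : ℝ) ≤ x := by exact_mod_cast hx1
  -- the sieving level
  obtain ⟨z, hz1, hz2⟩ : ∃ z : ℕ, z ^ D ≤ x ∧ x < (z + 1) ^ D := by
    set P : ℕ → Prop := fun z => z ^ D ≤ x with hP
    have h0 : P 0 := by simp only [hP, hD]; positivity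
    refine ⟨Nat.findGreatest P x, Nat.findGreatest_spec (P := P) (Nat.zero_le x) h0, ?_⟩
    by_contra hc
    rw [not_lt] at hc
    have h1 : Nat.findGreatest P x + 1 ≤ x :=
      (Nat.le_self_pow (by omega) _).trans hc
    have h2 := Nat.le_findGreatest (P := P) h1 hc
    omega
  have hz : 4 ≤ z := by
    by_contra hc
    have h1 : (z + 1) ^ D ≤ 4 ^ D := Nat.pow_le_pow_left (by omega) D
    omega
  have hzR : (4 : ℝ) ≤ z := by exact_mod_cast hz
  have hlz : 0 < Real.log z := Real.log_pos (by linarith)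
  have hlx : Real.log x ≤ 2 * D * Real.log z := by
    have h1 : (x : ℝ) ≤ ((z : ℝ) + 1) ^ D := by exact_mod_cast hz2.le
    have h2 : Real.log x ≤ D * Real.log ((z : ℝ) + 1) := by
      rw [← Real.log_pow]
      exact Real.log_le_log (by linarith) h1
    have h3 : Real.log ((z : ℝ) + 1) ≤ 2 * Real.log z := by
      have : Real.log ((z : ℝ) ^ 2) = 2 * Real.log z := by rw [Real.log_pow]; norm_num
      rw [← this]
      exact Real.log_le_log (by linarith) (by nlinarith)
    nlinarith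
  have hlx0 : 0 ≤ Real.log x := Real.log_nonneg hxR
  have hlk : Real.log x ^ 2 ≤ (2 * (D : ℝ)) ^ 2 * Real.log z ^ 2 := by
    rw [← mul_pow]
    exact pow_le_pow_left₀ hlx0 hlx 2
  have hsv := hCs z (x + 1) (by omega) (by
    calc z ^ Cs ≤ z ^ D := Nat.pow_le_pow_right (by omega) (by omega)
      _ ≤ x + 1 := by omega) (cl h) (fun p hp =>
        ⟨cl_card_le h p, cl_sub h (mem_PP.1 hp).2.pos⟩)
  have hBz := prod_pairs hh z hz
  have hcount : ((range (x + 1)).filter fun n => n.Prime ∧ (n + h).Prime).card ≤ (z + 1) +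
      ((range (x + 1)).filter fun t => ∀ p ∈ PP 2 z, t % p ∉ cl h p).card := by
    have hsub : ((range (x + 1)).filter fun n => n.Prime ∧ (n + h).Prime) ⊆
        range (z + 1) ∪ (range (x + 1)).filter fun t => ∀ p ∈ PP 2 z, t % p ∉ cl h p := by
      intro n hn
      rw [mem_filter] at hn
      by_cases hnz : n < z + 1
      · exact mem_union_left _ (mem_range.2 hnz)
      · refine mem_union_right _ (mem_filter.2 ⟨hn.1, fun p hp hc => ?_⟩)
        have hpp := mem_PP.1 hp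
        have h2 := hpp.1.2
        rcases cl_dvd hpp.2.pos hc with hdvd | hdvd
        · have h1 := (Nat.prime_dvd_prime_iff_eq hpp.2 hn.2.1).1 hdvd
          omega
        · have h1 := (Nat.prime_dvd_prime_iff_eq hpp.2 hn.2.2).1 hdvd
          omega
    refine (card_le_card hsub).trans ((card_union_le _ _).trans ?_)
    rw [card_range]
  set N : ℝ := (((range (x + 1)).filter fun n => n.Prime ∧ (n + h).Prime).card : ℝ) with hN
  have hcR : N ≤ ((z : ℝ) + 1) + 4 * ((x : ℝ) + 1) * (9 / Real.log z ^ 2 * sf h) := by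
    have h1 : N ≤ ((z : ℝ) + 1) +
        (((range (x + 1)).filter fun t => ∀ p ∈ PP 2 z, t % p ∉ cl h p).card : ℝ) := by
      rw [hN]
      exact_mod_cast hcount
    have h2 : 4 * (((x + 1 : ℕ) : ℝ)) * ∏ p ∈ PP 2 z, (1 - ((cl h p).card : ℝ) / p)
        ≤ 4 * ((x : ℝ) + 1) * (9 / Real.log z ^ 2 * sf h) := by
      push_cast
      exact mul_le_mul_of_nonneg_left hBz (by linarith)
    linarith
  have hzx : (z : ℝ) * z ≤ x := by
    have h1 : z * z ≤ x := by
      calc z * z = z ^ 2 := (sq z).symm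
        _ ≤ z ^ D := Nat.pow_le_pow_right (by omega) (by omega)
        _ ≤ x := hz1
    exact_mod_cast h1
  have hlzk : Real.log z ^ 2 ≤ 2 * (z : ℝ) := by
    have h1 := Real.pow_div_factorial_le_exp (Real.log z) hlz.le 2
    rw [Real.exp_log (by linarith), div_le_iff₀ (by positivity)] at h1
    have : ((Nat.factorial 2 : ℕ) : ℝ) = 2 := by norm_num [Nat.factorial]
    rw [this] at h1
    linarith
  have hlzk0 : 0 < Real.log z ^ 2 := pow_pos hlz 2
  calc N * Real.log x ^ 2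
      ≤ (((z : ℝ) + 1) + 4 * ((x : ℝ) + 1) * (9 / Real.log z ^ 2 * sf h)) *
          ((2 * (D : ℝ)) ^ 2 * Real.log z ^ 2) :=
        mul_le_mul hcR hlk (by positivity) (by positivity)
    _ = ((z : ℝ) + 1) * ((2 * (D : ℝ)) ^ 2 * Real.log z ^ 2) +
          36 * ((x : ℝ) + 1) * (2 * (D : ℝ)) ^ 2 * sf h := by field_simp; ring
    _ ≤ (2 * (z : ℝ)) * ((2 * (D : ℝ)) ^ 2 * (2 * (z : ℝ))) * 1 +
          36 * (2 * (x : ℝ)) * (2 * (D : ℝ)) ^ 2 * sf h := by
        refine add_le_add ?_ ?_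
        · rw [mul_one]
          refine mul_le_mul (by linarith) (mul_le_mul_of_nonneg_left hlzk (by positivity))
            (by positivity) (by linarith)
        · refine mul_le_mul_of_nonneg_right ?_ (by linarith)
          exact mul_le_mul_of_nonneg_right (by linarith) (by positivity)
    _ ≤ 2 * ((2 * (D : ℝ)) ^ 2 * 2) * ((z : ℝ) * z) * sf h +
          36 * (2 * (x : ℝ)) * (2 * (D : ℝ)) ^ 2 * sf h := by
        refine add_le_add ?_ le_rfl
        have e : (2 * (z : ℝ)) * ((2 * (D : ℝ)) ^ 2 * (2 * (z : ℝ))) * 1 =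
            2 * ((2 * (D : ℝ)) ^ 2 * 2) * ((z : ℝ) * z) * 1 := by ring
        rw [e]
        exact mul_le_mul_of_nonneg_left hsf (by positivity)
    _ ≤ 2 * ((2 * (D : ℝ)) ^ 2 * 2) * x * sf h +
          36 * (2 * (x : ℝ)) * (2 * (D : ℝ)) ^ 2 * sf h := by
        refine add_le_add ?_ le_rfl
        refine mul_le_mul_of_nonneg_right ?_ (by linarith)
        exact mul_le_mul_of_nonneg_left hzx (by positivity)
    _ = _ := by ring

end Pool.Agent.Lib_MP_7ba156_cube
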