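import Pool.Agent.Lib_MP_7ba156_cube.Pairs

/-!
# MP_7ba156_nt: the proportion of short intervals which contain a prime
-/

set_option autoImplicit false

namespace Pool.Agent.Lib_MP_7ba156_cube

open Finset

/-- the starting points `r < q` of intervals `[r, r + H]` with a prime -/
def good (q H : ℕ) : Finset ℕ := (range q).filter fun r => ∃ j ∈ range (H + 1), (r + j).Prime

/-- the number of primes in `[r, r + H]` -/
def cnt (H r : ℕ) : ℕ := ((range (H + 1)).filter fun j => (r + j).Prime).card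

theorem sum_sf : ∃ C : ℝ, 0 < C ∧ ∀ H : ℕ, ∑ h ∈ Icc 1 H, sf h ≤ C * H := by
  have hs : Summable (fun n : ℕ => 1 / (n : ℝ) ^ (3 / 2 : ℝ)) :=
    Real.summable_one_div_nat_rpow.2 (by norm_num)
  refine ⟨(∑' n : ℕ, 1 / (n : ℝ) ^ (3 / 2 : ℝ)) + 1, ?_, fun H => ?_⟩
  · have : 0 ≤ ∑' n : ℕ, 1 / (n : ℝ) ^ (3 / 2 : ℝ) := tsum_nonneg fun n => by positivity
    linarith
  have h1 : ∑ h ∈ Icc 1 H, sf h ≤ ∑ h ∈ Icc 1 H, ∑ d ∈ Icc 1 H, if d ∣ h then 1 / Real.sqrt (d : ℝ) else 0 := by
    refine sum_le_sum fun h hh => ?_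
    rw [mem_Icc] at hh
    unfold sf
    rw [← sum_filter]
    refine sum_le_sum_of_subset_of_nonneg ?_ (fun d _ _ => by positivity)
    intro d hd
    obtain ⟨h2, h3⟩ := Nat.mem_divisors.1 hd
    have h4 := Nat.le_of_dvd (by omega) h2
    have h5 := Nat.pos_of_dvd_of_pos h2 (by omega)
    exact mem_filter.2 ⟨mem_Icc.2 ⟨h5, by omega⟩, h2⟩
  have h2 : ∑ h ∈ Icc 1 H, ∑ d ∈ Icc 1 H, (if d ∣ h then 1 / Real.sqrt (d : ℝ) else 0) ≤
      ∑ d ∈ Icc 1 H, (H : ℝ) * (1 / (d : ℝ) ^ (3 / 2 : ℝ)) := by
    rw [sum_comm]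
    refine sum_le_sum fun d hd => ?_
    rw [mem_Icc] at hd
    have hd0 : (0 : ℝ) < d := by exact_mod_cast hd.1
    rw [← sum_filter, sum_const, nsmul_eq_mul]
    have h3 : (((Icc 1 H).filter fun h => d ∣ h).card : ℝ) ≤ (H : ℝ) / d := by
      have h4 : ((Icc 1 H).filter fun h => d ∣ h).card = H / d := by
        have := Nat.card_multiples' H d
        rw [← this]
        congr 1
        ext h
        simp only [mem_filter, mem_Icc, mem_range]
        constructor
        · rintro ⟨⟨a, b⟩, c⟩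
          exact ⟨by omega, by omega, c⟩
        · rintro ⟨a, b, c⟩
          exact ⟨⟨by omega, by omega⟩, c⟩
      rw [h4]
      exact Nat.cast_div_le
    have h5 : (d : ℝ) ^ (3 / 2 : ℝ) = d * Real.sqrt d := by
      rw [show (3 / 2 : ℝ) = 1 + 1 / 2 by norm_num, Real.rpow_add hd0, Real.rpow_one, ← Real.sqrt_eq_rpow]
    have hs0 : 0 < Real.sqrt d := Real.sqrt_pos.2 hd0
    calc (((Icc 1 H).filter fun h => d ∣ h).card : ℝ) * (1 / Real.sqrt d)
        ≤ (H : ℝ) / d * (1 / Real.sqrt d) := mul_le_mul_of_nonneg_right h3 (by positivity)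
      _ = _ := by rw [h5]; field_simp
  rw [← mul_sum] at h2
  have h3 : ∑ d ∈ Icc 1 H, 1 / (d : ℝ) ^ (3 / 2 : ℝ) ≤ ∑' n : ℕ, 1 / (n : ℝ) ^ (3 / 2 : ℝ) :=
    hs.sum_le_tsum _ (fun n _ => by positivity)
  have h4 : (H : ℝ) * ∑ d ∈ Icc 1 H, 1 / (d : ℝ) ^ (3 / 2 : ℝ) ≤
      (H : ℝ) * ((∑' n : ℕ, 1 / (n : ℝ) ^ (3 / 2 : ℝ)) + 1) :=
    mul_le_mul_of_nonneg_left (by linarith) (by positivity)
  linarith

theorem log_small (c : ℝ) (hc : 0 < c) : ∃ q₀ : ℕ, ∀ q : ℕ, q₀ ≤ q → Real.log q ^ 3 ≤ c * q := by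
  have h := (Real.isLittleO_pow_log_id_atTop (n := 3)).bound hc
  obtain ⟨x₀, hx₀⟩ := Filter.eventually_atTop.1 h
  refine ⟨max 1 (Nat.ceil x₀), fun q hq => ?_⟩
  have h1 : x₀ ≤ (q : ℝ) := (Nat.le_ceil x₀).trans (by exact_mod_cast (le_max_right _ _).trans hq)
  have h2 := hx₀ q h1
  have h3 : (1 : ℝ) ≤ q := by exact_mod_cast (le_max_left _ _).trans hq
  rw [id, Real.norm_of_nonneg (by linarith : (0 : ℝ) ≤ q), Real.norm_of_nonneg
    (pow_nonneg (Real.log_nonneg h3) 3)] at h2
  exact h2

theorem pi_lower : ∃ q₀ : ℕ, ∀ q : ℕ, q₀ ≤ q → (q : ℝ) / (2 * Real.log q) ≤ Nat.primeCounting q := by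
  obtain ⟨q₁, h1⟩ := log_small (1 / 100) (by norm_num)
  refine ⟨max q₁ 10, fun q hq => ?_⟩
  have hq10 : 10 ≤ q := (le_max_right _ _).trans hq
  have hqR : (10 : ℝ) ≤ q := by exact_mod_cast hq10
  have h2 := h1 q ((le_max_left _ _).trans hq)
  have hl1 : 1 ≤ Real.log q := by
    rw [Real.le_log_iff_exp_le (by linarith)]
    have := Real.exp_one_lt_d9
    linarith
  have h3 : Real.log q ≤ Real.log q ^ 3 := by
    nlinarith [sq_nonneg (Real.log q), mul_nonneg (sub_nonneg.2 hl1) (sub_nonneg.2 hl1)]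
  have h4 : Real.log (q + 1) ≤ 2 * Real.log q := by
    rw [show 2 * Real.log q = Real.log ((q : ℝ) ^ 2) by rw [Real.log_pow]; norm_num]
    exact Real.log_le_log (by linarith) (by nlinarith)
  have h5 := Chebyshev.pi_ge q
  refine le_trans ?_ h5
  have hl2 : (0.6931471803 : ℝ) < Real.log 2 := Real.log_two_gt_d9
  rw [← div_div]
  refine div_le_div_of_nonneg_right ?_ (by linarith)
  nlinarith

theorem pi_upper : ∃ q₀ : ℕ, ∀ q : ℕ, q₀ ≤ q → (Nat.primeCounting q : ℝ) ≤ 2 * q / Real.log q := by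
  have h := Chebyshev.eventually_primeCounting_le (ε := 1 / 2) (by norm_num)
  obtain ⟨x₀, hx₀⟩ := Filter.eventually_atTop.1 h
  refine ⟨max 10 (Nat.ceil x₀), fun q hq => ?_⟩
  have hq10 : 10 ≤ q := (le_max_left _ _).trans hq
  have hqR : (10 : ℝ) ≤ q := by exact_mod_cast hq10
  have h1 : x₀ ≤ (q : ℝ) := (Nat.le_ceil x₀).trans (by exact_mod_cast (le_max_right _ _).trans hq)
  have h2 := hx₀ q h1
  rw [Nat.floor_natCast] at h2
  refine h2.trans ?_
  have hl : 0 < Real.log q := Real.log_pos (by linarith)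
  refine div_le_div_of_nonneg_right ?_ hl.le
  have h4 : Real.log 4 ≤ 1.4 := by
    rw [show (4 : ℝ) = 2 ^ 2 by norm_num, Real.log_pow]
    have := Real.log_two_lt_d9
    push_cast
    linarith
  nlinarith

theorem shift_lower (q j : ℕ) :
    Nat.primeCounting q ≤ ((range q).filter fun r => (r + j).Prime).card + (j + 1) := by
  classical
  have h0 : Nat.primeCounting q = ((range (q + 1)).filter Nat.Prime).card := by
    rw [Nat.primeCounting, Nat.primeCounting', Nat.count_eq_card_filter_range]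
  rw [h0]
  have hsub : (range (q + 1)).filter Nat.Prime ⊆
      (((range q).filter fun r => (r + j).Prime).image fun r => r + j) ∪ (range j ∪ {q}) := by
    intro p hp
    rw [mem_filter, mem_range] at hp
    by_cases h1 : p < j
    · exact mem_union_right _ (mem_union_left _ (mem_range.2 h1))
    · by_cases h2 : p = q
      · exact mem_union_right _ (mem_union_right _ (mem_singleton.2 h2))
      · refine mem_union_left _ (mem_image.2 ⟨p - j, mem_filter.2 ⟨mem_range.2 (by omega), ?_⟩, by omega⟩)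
        rw [Nat.sub_add_cancel (by omega)]
        exact hp.2
  refine (card_le_card hsub).trans ((card_union_le _ _).trans ?_)
  refine Nat.add_le_add card_image_le ((card_union_le _ _).trans ?_)
  rw [card_range, card_singleton]

theorem shift_upper (q j : ℕ) (hj : j ≤ q) :
    ((range q).filter fun r => (r + j).Prime).card ≤ Nat.primeCounting (2 * q) := by
  classical
  have h0 : Nat.primeCounting (2 * q) = ((range (2 * q + 1)).filter Nat.Prime).card := by
    rw [Nat.primeCounting, Nat.primeCounting', Nat.count_eq_card_filter_range]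
  rw [h0]
  refine card_le_card_of_injOn (fun r => r + j) ?_ (fun a _ b _ hab => by
    have : a + j = b + j := hab
    omega)
  intro r hr
  have hr' := mem_filter.1 (mem_coe.1 hr)
  have := mem_range.1 hr'.1
  exact mem_coe.2 (mem_filter.2 ⟨mem_range.2 (by show r + j < 2 * q + 1; omega), hr'.2⟩)

theorem shift_pair (q i j : ℕ) (hij : i < j) (hj : j ≤ q) :
    ((range q).filter fun r => (r + i).Prime ∧ (r + j).Prime).card ≤
      ((range (2 * q + 1)).filter fun n => n.Prime ∧ (n + (j - i)).Prime).card := by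
  refine card_le_card_of_injOn (fun r => r + i) ?_ (fun a _ b _ hab => by
    have : a + i = b + i := hab
    omega)
  intro r hr
  have hr' := mem_filter.1 (mem_coe.1 hr)
  have := mem_range.1 hr'.1
  refine mem_coe.2 (mem_filter.2 ⟨mem_range.2 (by show r + i < 2 * q + 1; omega), hr'.2.1, ?_⟩)
  show (r + i + (j - i)).Prime
  rw [show r + i + (j - i) = r + j by omega]
  exact hr'.2.2

theorem sum_cnt (q H : ℕ) : ∑ r ∈ range q, (cnt H r : ℝ) =
    ∑ j ∈ range (H + 1), (((range q).filter fun r => (r + j).Prime).card : ℝ) := by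
  have e1 : ∀ r, (cnt H r : ℝ) = ∑ j ∈ range (H + 1), if (r + j).Prime then (1 : ℝ) else 0 := by
    intro r
    rw [cnt, card_filter]
    push_cast
    rfl
  have e2 : ∀ j, (((range q).filter fun r => (r + j).Prime).card : ℝ) =
      ∑ r ∈ range q, if (r + j).Prime then (1 : ℝ) else 0 := by
    intro j
    rw [card_filter]
    push_cast
    rfl
  simp only [e1, e2]
  exact sum_comm

theorem sum_cnt_sq (q H : ℕ) : ∑ r ∈ range q, (cnt H r : ℝ) ^ 2 =
    ∑ i ∈ range (H + 1), ∑ j ∈ range (H + 1),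
      (((range q).filter fun r => (r + i).Prime ∧ (r + j).Prime).card : ℝ) := by
  have e1 : ∀ r, (cnt H r : ℝ) ^ 2 = ∑ i ∈ range (H + 1), ∑ j ∈ range (H + 1),
      if (r + i).Prime ∧ (r + j).Prime then (1 : ℝ) else 0 := by
    intro r
    rw [cnt, card_filter]
    push_cast
    rw [sq, sum_mul_sum]
    refine sum_congr rfl fun i _ => sum_congr rfl fun j _ => ?_
    by_cases h1 : (r + i).Prime <;> by_cases h2 : (r + j).Prime <;> simp [h1, h2]
  have e2 : ∀ i j, (((range q).filter fun r => (r + i).Prime ∧ (r + j).Prime).card : ℝ) =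
      ∑ r ∈ range q, if (r + i).Prime ∧ (r + j).Prime then (1 : ℝ) else 0 := by
    intro i j
    rw [card_filter]
    push_cast
    rfl
  simp only [e1, e2]
  rw [sum_comm]
  exact sum_congr rfl fun i _ => sum_comm

/-- **The proportion of intervals with a prime.** -/
theorem good_lower : ∃ c : ℝ, 0 < c ∧ ∃ q₀ : ℕ, ∀ q : ℕ, q₀ ≤ q → ∀ H : ℕ, (H : ℝ) ≤ Real.log q →
    c * ((H : ℝ) + 1) * q / Real.log q ≤ ((good q H).card : ℝ) := by
  classical
  obtain ⟨C₁, hC₁, x₁, hpair⟩ := pair_upper
  obtain ⟨C₂, hC₂, hsf⟩ := sum_sf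
  obtain ⟨q₁, hlow⟩ := pi_lower
  obtain ⟨q₂, hup⟩ := pi_upper
  obtain ⟨q₃, hlog⟩ := log_small (1 / 100) (by norm_num)
  set C₃ : ℝ := 4 + 4 * C₁ * C₂ with hC₃
  have hC₃0 : 0 < C₃ := by positivity
  refine ⟨1 / (16 * C₃), by positivity, max (max x₁ q₁) (max (max q₂ q₃) 10), fun q hq H hH => ?_⟩
  have hq1 : x₁ ≤ q := ((le_max_left _ _).trans (le_max_left _ _)).trans hq
  have hq2 : q₁ ≤ q := ((le_max_right _ _).trans (le_max_left _ _)).trans hq
  have hq3 : q₂ ≤ q := (((le_max_left _ _).trans (le_max_left _ _)).trans (le_max_right _ _)).trans hq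
  have hq4 : q₃ ≤ q := (((le_max_right _ _).trans (le_max_left _ _)).trans (le_max_right _ _)).trans hq
  have hq5 : 10 ≤ q := ((le_max_right _ _).trans (le_max_right _ _)).trans hq
  have hqR : (10 : ℝ) ≤ q := by exact_mod_cast hq5
  set L := Real.log q with hL
  have hl1 : 1 ≤ L := by
    rw [hL, Real.le_log_iff_exp_le (by linarith)]
    have := Real.exp_one_lt_d9
    linarith
  have hL0 : 0 < L := by linarith
  have hL3 := hlog q hq4
  have hLq : L ≤ q / 100 := by
    have : L ≤ L ^ 3 := by nlinarith [sq_nonneg L, mul_nonneg (sub_nonneg.2 hl1) (sub_nonneg.2 hl1)]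
    linarith
  have hHq : H ≤ q := by
    have : (H : ℝ) ≤ q := by linarith
    exact_mod_cast this
  -- the first moment
  have hS1 : ((H : ℝ) + 1) * (q / (4 * L)) ≤ ∑ r ∈ range q, (cnt H r : ℝ) := by
    rw [sum_cnt]
    have h1 : ∀ j ∈ range (H + 1), (q : ℝ) / (4 * L) ≤
        (((range q).filter fun r => (r + j).Prime).card : ℝ) := by
      intro j hj
      have hj' : j ≤ H := by have := mem_range.1 hj; omega
      have h2 : (Nat.primeCounting q : ℝ) ≤
          (((range q).filter fun r => (r + j).Prime).card : ℝ) + (j + 1) := by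
        exact_mod_cast shift_lower q j
      have h3 := hlow q hq2
      have h4 : (j : ℝ) ≤ L := le_trans (by exact_mod_cast hj') hH
      have h5 : (q : ℝ) / (2 * L) = 2 * (q / (4 * L)) := by field_simp; ring
      have h6 : L + 1 ≤ q / (4 * L) := by
        rw [le_div_iff₀ (by positivity)]
        nlinarith [sq_nonneg (L - 1), mul_nonneg (sub_nonneg.2 hl1) (sq_nonneg L)]
      rw [h5] at h3
      linarith
    calc ((H : ℝ) + 1) * (q / (4 * L)) = ∑ j ∈ range (H + 1), (q : ℝ) / (4 * L) := by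
          rw [sum_const, card_range, nsmul_eq_mul]
          push_cast
          ring
      _ ≤ _ := sum_le_sum h1
  -- the second moment
  have hlog2 : L ≤ Real.log ((2 * q : ℕ) : ℝ) := by
    rw [hL]
    refine Real.log_le_log (by linarith) ?_
    push_cast
    linarith
  have hdiag : ∀ i ∈ range (H + 1), (((range q).filter fun r => (r + i).Prime ∧ (r + i).Prime).card : ℝ)
      ≤ 4 * q / L := by
    intro i hi
    have hi' : i ≤ q := by have := mem_range.1 hi; omega
    have h1 := shift_upper q i hi'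
    have h2 := hup (2 * q) (by omega)
    simp only [and_self]
    have h3 : (((range q).filter fun r => (r + i).Prime).card : ℝ) ≤ Nat.primeCounting (2 * q) := by
      exact_mod_cast h1
    refine h3.trans (h2.trans ?_)
    push_cast
    push_cast at hlog2
    rw [show (2 : ℝ) * (2 * q) = 4 * q by ring]
    exact div_le_div_of_nonneg_left (by positivity) hL0 hlog2
  have hoff : ∀ i j : ℕ, i < j → j ≤ H →
      (((range q).filter fun r => (r + i).Prime ∧ (r + j).Prime).card : ℝ) ≤
        2 * C₁ * q / L ^ 2 * sf (j - i) := by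
    intro i j hij hj
    have h1 : (((range q).filter fun r => (r + i).Prime ∧ (r + j).Prime).card : ℝ) ≤
      (((range (2 * q + 1)).filter fun n => n.Prime ∧ (n + (j - i)).Prime).card : ℝ) := by
      exact_mod_cast shift_pair q i j hij (by omega)
    have h2 := hpair (2 * q) (by omega) (j - i) (by omega)
    have h3 : L ^ 2 ≤ Real.log ((2 * q : ℕ) : ℝ) ^ 2 := pow_le_pow_left₀ hL0.le hlog2 2
    rw [div_mul_eq_mul_div, le_div_iff₀ (by positivity)]
    calc (((range q).filter fun r => (r + i).Prime ∧ (r + j).Prime).card : ℝ) * L ^ 2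
        ≤ (((range (2 * q + 1)).filter fun n => n.Prime ∧ (n + (j - i)).Prime).card : ℝ) *
          Real.log ((2 * q : ℕ) : ℝ) ^ 2 := mul_le_mul h1 h3 (by positivity) (by positivity)
      _ ≤ C₁ * ((2 * q : ℕ) : ℝ) * sf (j - i) := h2
      _ = _ := by push_cast; ring
  have hrow : ∀ i ∈ range (H + 1), ∑ j ∈ range (H + 1),
      (((range q).filter fun r => (r + i).Prime ∧ (r + j).Prime).card : ℝ) ≤ C₃ * q / L := by
    intro i hi
    have hi' : i ≤ H := by have := mem_range.1 hi; omega
    have h1 : ∀ j ∈ range (H + 1), (((range q).filter fun r => (r + i).Prime ∧ (r + j).Prime).card : ℝ) ≤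
        (if j = i then 4 * q / L else 0) + 2 * C₁ * q / L ^ 2 *
          ((if j < i then sf (i - j) else 0) + (if i < j then sf (j - i) else 0)) := by
      intro j hj
      have hj' : j ≤ H := by have := mem_range.1 hj; omega
      rcases lt_trichotomy i j with h | h | h
      · rw [if_neg (by omega), if_neg (by omega), if_pos h, zero_add, zero_add]
        exact hoff i j h hj'
      · subst h
        rw [if_pos rfl, if_neg (by omega), add_zero, mul_zero, add_zero]
        exact hdiag i hi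
      · rw [if_neg (by omega), if_pos h, if_neg (by omega), zero_add, add_zero]
        have h2 := hoff j i h hi'
        have e : ((range q).filter fun r => (r + i).Prime ∧ (r + j).Prime) =
            ((range q).filter fun r => (r + j).Prime ∧ (r + i).Prime) :=
          filter_congr fun r _ => and_comm
        rw [e]
        exact h2
    have hA : ∑ j ∈ range (H + 1), (if j < i then sf (i - j) else 0) ≤ C₂ * H := by
      refine le_trans ?_ (hsf H)
      rw [← sum_filter]
      have : ∑ j ∈ (range (H + 1)).filter (fun j => j < i), sf (i - j) =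
          ∑ h ∈ ((range (H + 1)).filter (fun j => j < i)).image (fun j => i - j), sf h := by
        rw [sum_image]
        intro a ha b hb hab
        have ha' := (mem_filter.1 (mem_coe.1 ha)).2
        have hb' := (mem_filter.1 (mem_coe.1 hb)).2
        have : i - a = i - b := hab
        omega
      rw [this]
      refine sum_le_sum_of_subset_of_nonneg ?_ (fun h hh _ => ?_)
      · intro h hh
        obtain ⟨j, hj, rfl⟩ := mem_image.1 hh
        have := (mem_filter.1 hj).2
        exact mem_Icc.2 ⟨by omega, by omega⟩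
      · have := one_le_sf (mem_Icc.1 hh).1
        linarith
    have hB : ∑ j ∈ range (H + 1), (if i < j then sf (j - i) else 0) ≤ C₂ * H := by
      refine le_trans ?_ (hsf H)
      rw [← sum_filter]
      have : ∑ j ∈ (range (H + 1)).filter (fun j => i < j), sf (j - i) =
          ∑ h ∈ ((range (H + 1)).filter (fun j => i < j)).image (fun j => j - i), sf h := by
        rw [sum_image]
        intro a ha b hb hab
        have ha' := (mem_filter.1 (mem_coe.1 ha)).2
        have hb' := (mem_filter.1 (mem_coe.1 hb)).2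
        have : a - i = b - i := hab
        omega
      rw [this]
      refine sum_le_sum_of_subset_of_nonneg ?_ (fun h hh _ => ?_)
      · intro h hh
        obtain ⟨j, hj, rfl⟩ := mem_image.1 hh
        have h1 := (mem_filter.1 hj).2
        have h2 := mem_range.1 (mem_filter.1 hj).1
        exact mem_Icc.2 ⟨by omega, by omega⟩
      · have := one_le_sf (mem_Icc.1 hh).1
        linarith
    refine (sum_le_sum h1).trans ?_
    rw [sum_add_distrib, ← mul_sum, sum_add_distrib, sum_ite_eq' (range (H + 1)) i, if_pos hi]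
    have h5 : 2 * C₁ * q / L ^ 2 * ((∑ j ∈ range (H + 1), (if j < i then sf (i - j) else 0)) +
        ∑ j ∈ range (H + 1), (if i < j then sf (j - i) else 0)) ≤
        2 * C₁ * q / L ^ 2 * (C₂ * H + C₂ * H) :=
      mul_le_mul_of_nonneg_left (add_le_add hA hB) (by positivity)
    have h6 : 2 * C₁ * q / L ^ 2 * (C₂ * H + C₂ * H) ≤ 4 * C₁ * C₂ * q / L := by
      rw [show 2 * C₁ * q / L ^ 2 * (C₂ * H + C₂ * H) = 4 * C₁ * C₂ * q / L * (H / L) by field_simp; ring]
      have : (H : ℝ) / L ≤ 1 := (div_le_one hL0).2 hH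
      exact mul_le_of_le_one_right (by positivity) this
    have h7 : C₃ * q / L = 4 * q / L + 4 * C₁ * C₂ * q / L := by rw [hC₃]; ring
    linarith
  have hS2 : ∑ r ∈ range q, (cnt H r : ℝ) ^ 2 ≤ ((H : ℝ) + 1) * (C₃ * q / L) := by
    rw [sum_cnt_sq]
    refine (sum_le_sum hrow).trans ?_
    rw [sum_const, card_range, nsmul_eq_mul]
    push_cast
    exact le_rfl
  -- Cauchy-Schwarz
  have hsupp : ∀ r ∈ range q, r ∉ good q H → (cnt H r : ℝ) = 0 := by
    intro r hr hg
    have : cnt H r = 0 := by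
      rw [cnt, card_eq_zero, filter_eq_empty_iff]
      intro j hj hp
      exact hg (mem_filter.2 ⟨hr, j, hj, hp⟩)
    exact_mod_cast this
  have hsum : ∑ r ∈ good q H, (cnt H r : ℝ) = ∑ r ∈ range q, (cnt H r : ℝ) :=
    sum_subset (filter_subset _ _) hsupp
  have hcs : (∑ r ∈ range q, (cnt H r : ℝ)) ^ 2 ≤ ((good q H).card : ℝ) * ∑ r ∈ range q, (cnt H r : ℝ) ^ 2 := by
    rw [← hsum]
    refine (sq_sum_le_card_mul_sum_sq).trans (mul_le_mul_of_nonneg_left ?_ (by positivity))
    exact sum_le_sum_of_subset_of_nonneg (filter_subset _ _) (fun r _ _ => by positivity)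
  set G : ℝ := ((good q H).card : ℝ) with hG
  have hG0 : 0 ≤ G := by rw [hG]; positivity
  have hfin : (((H : ℝ) + 1) * (q / (4 * L))) ^ 2 ≤ G * (((H : ℝ) + 1) * (C₃ * q / L)) :=
    (pow_le_pow_left₀ (by positivity) hS1 2).trans (hcs.trans (mul_le_mul_of_nonneg_left hS2 hG0))
  have hpos : 0 < ((H : ℝ) + 1) * (C₃ * q / L) := by positivity
  have e : (((H : ℝ) + 1) * (q / (4 * L))) ^ 2 =
      (1 / (16 * C₃) * ((H : ℝ) + 1) * q / L) * (((H : ℝ) + 1) * (C₃ * q / L)) := by
    field_simp
    ring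
  rw [e] at hfin
  exact le_of_mul_le_mul_right hfin hpos

end Pool.Agent.Lib_MP_7ba156_cube
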